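import Mathlib

set_option autoImplicit false

namespace Pool.Agent.Results.MP_4a3f67_an.SixMinimizers

/-- The quadratic form `x ↦ xᵀ A x`. -/
def qf {n : ℕ} (A : Matrix (Fin n) (Fin n) ℝ) (x : EuclideanSpace ℝ (Fin n)) : ℝ :=
  ∑ i, ∑ j, x i * A i j * x j

/-- The feasible set `{x | q₁(x) = 1, q₂(x) ≤ 1}` of (QQ2). -/
def feas {n : ℕ} (A₁ A₂ : Matrix (Fin n) (Fin n) ℝ) : Set (EuclideanSpace ℝ (Fin n)) :=
  {x | qf A₁ x = 1 ∧ qf A₂ x ≤ 1}

/-- `x` is a strict local minimizer of (QQ2) with data `A₀, A₁, A₂`. -/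
def IsStrictLocalMinimizer {n : ℕ} (A₀ A₁ A₂ : Matrix (Fin n) (Fin n) ℝ)
    (x : EuclideanSpace ℝ (Fin n)) : Prop :=
  x ∈ feas A₁ A₂ ∧
    ∃ ε : ℝ, 0 < ε ∧ ∀ y ∈ feas A₁ A₂, 0 < ‖y - x‖ → ‖y - x‖ < ε → qf A₀ x < qf A₀ y

/-- `x` is not a global minimizer of (QQ2): some feasible point has a smaller value. -/
def IsNonGlobal {n : ℕ} (A₀ A₁ A₂ : Matrix (Fin n) (Fin n) ℝ)
    (x : EuclideanSpace ℝ (Fin n)) : Prop :=
  ∃ y ∈ feas A₁ A₂, qf A₀ y < qf A₀ x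

/-! ### Real-number core -/

theorem second_order {κ K C μ M N A B q1 q2 s : ℝ} (hK : 0 < K)
    (hM : κ * N - K * (A^2 + B^2) ≤ M) (hA : A = -q1) (hB : B = -s - q2)
    (hq1 : |q1| ≤ C * N) (hq2 : |q2| ≤ C * N) (hs : 0 ≤ s) (hN : 0 < N)
    (hN1 : 3 * K * C^2 * N < κ) (hs1 : 2 * K * s < μ) : 0 < M + μ * s := by
  have e1 : q1^2 ≤ (C*N)^2 := sq_le_sq' (by linarith [(abs_le.mp hq1).1]) (abs_le.mp hq1).2
  have e2 : q2^2 ≤ (C*N)^2 := sq_le_sq' (by linarith [(abs_le.mp hq2).1]) (abs_le.mp hq2).2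
  have e3 : (s + q2)^2 ≤ 2*s^2 + 2*q2^2 := by nlinarith [sq_nonneg (s - q2)]
  have e4 : A^2 + B^2 ≤ 2*s^2 + 3*(C*N)^2 := by
    rw [hA, hB]; nlinarith
  have e5 : K * (A^2 + B^2) ≤ K * (2*s^2 + 3*(C*N)^2) := mul_le_mul_of_nonneg_left e4 hK.le
  have e6 : 0 < N * (κ - 3 * K * C^2 * N) := mul_pos hN (by linarith)
  have e7 : 0 ≤ s * (μ - 2 * K * s) := mul_nonneg hs (by linarith)
  nlinarith

theorem q1_bound (a b c t : ℝ) (ht : 0 ≤ t) :
    |a^2 + b^2 + c^2 + 8*a*c + 2*b*c| ≤ 14 * (a^2 + b^2 + c^2 + t) := by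
  rw [abs_le]; constructor
  · nlinarith [sq_nonneg (a+c), sq_nonneg (b+c), sq_nonneg a, sq_nonneg b, sq_nonneg c]
  · nlinarith [sq_nonneg (a-c), sq_nonneg (b-c), sq_nonneg a, sq_nonneg b, sq_nonneg c]

theorem q2_bound (a b c t : ℝ) (ht : 0 ≤ t) :
    |a^2 + b^2 + c^2 - 10*a*b + 12*a*c + 4*b*c| ≤ 14 * (a^2 + b^2 + c^2 + t) := by
  rw [abs_le]; constructor
  · nlinarith [sq_nonneg (a-b), sq_nonneg (a+c), sq_nonneg (b+c), sq_nonneg a, sq_nonneg b,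
      sq_nonneg c]
  · nlinarith [sq_nonneg (a+b), sq_nonneg (a-c), sq_nonneg (b-c), sq_nonneg a, sq_nonneg b,
      sq_nonneg c]

/-- analysis at `e₁` -/
theorem core1 (a b c t : ℝ) (ht : 0 ≤ t) (hN : 0 < a^2 + b^2 + c^2 + t)
    (hN2 : a^2 + b^2 + c^2 + t < (1/10000)^2)
    (h1 : (1+a)^2 + b^2 + c^2 + 8*(1+a)*c + 2*b*c = 1)
    (h2 : (1+a)^2 + b^2 + c^2 - 10*(1+a)*b + 12*(1+a)*c + 4*b*c ≤ 1) :
    0 < -10*b^2 + 10*c^2 - 22*b*c + 10*(1+a)*b - 4*(1+a)*c + t := by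
  have hM : (1/1000) * (a^2+b^2+c^2+t) - 25 * ((2*a+8*c)^2 + (2*a-10*b+12*c)^2)
      ≤ -10*b^2 - 20*b*c + 10*c^2 + t := by
    obtain ⟨u, hu⟩ : ∃ u, u = 4*c - 10*b := ⟨_, rfl⟩
    obtain ⟨w, hw⟩ : ∃ w, w = 4*a + 16*c + u := ⟨_, rfl⟩
    have ha : a = (w - u - 16*c)/4 := by rw [hw]; ring
    have hb : b = (4*c - u)/10 := by rw [hu]; ring
    rw [ha, hb]
    nlinarith [sq_nonneg (c + 5*u), sq_nonneg u, sq_nonneg w, sq_nonneg c, sq_nonneg (w + u),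
      sq_nonneg (w + 16*c), sq_nonneg (u - 16*c), sq_nonneg (c + 7*u)]
  have ha : |a| < 1/10000 := abs_lt_of_sq_lt_sq (by nlinarith [sq_nonneg b, sq_nonneg c]) (by norm_num)
  have hb : |b| < 1/10000 := abs_lt_of_sq_lt_sq (by nlinarith [sq_nonneg a, sq_nonneg c]) (by norm_num)
  have hc : |c| < 1/10000 := abs_lt_of_sq_lt_sq (by nlinarith [sq_nonneg b, sq_nonneg a]) (by norm_num)
  have hq2 := q2_bound a b c t ht
  have hq1 := q1_bound a b c t ht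
  rw [abs_lt] at ha hb hc
  have hq2' := (abs_le.mp hq2).1
  have := second_order (κ := 1/1000) (K := 25) (C := 14) (μ := 1)
    (s := 1 - ((1+a)^2 + b^2 + c^2 - 10*(1+a)*b + 12*(1+a)*c + 4*b*c))
    (by norm_num) hM (by linarith) (by ring) hq1 hq2 (by linarith) hN
    (by norm_num at hN2 ⊢; linarith) (by norm_num at hN2 ⊢; nlinarith)
  nlinarith

/-- analysis at `e₂` -/
theorem core2 (a b c t : ℝ) (ht : 0 ≤ t) (hN : 0 < a^2 + b^2 + c^2 + t)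
    (hN2 : a^2 + b^2 + c^2 + t < (1/10000)^2)
    (h1 : a^2 + (1+b)^2 + c^2 + 8*a*c + 2*(1+b)*c = 1)
    (h2 : a^2 + (1+b)^2 + c^2 - 10*a*(1+b) + 12*a*c + 4*(1+b)*c ≤ 1) :
    -10 < -10*(1+b)^2 + 10*c^2 - 22*(1+b)*c + 10*a*(1+b) - 4*a*c + t := by
  have hM : (1/1000) * (a^2+b^2+c^2+t) - 25 * ((2*b+2*c)^2 + (-10*a+2*b+4*c)^2)
      ≤ 10*a^2 + 80*a*c + 20*c^2 + t := by
    obtain ⟨u, hu⟩ : ∃ u, u = 2*c - 10*a := ⟨_, rfl⟩
    obtain ⟨w, hw⟩ : ∃ w, w = -10*a + 4*b + 6*c := ⟨_, rfl⟩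
    have hc : c = (u + 10*a)/2 := by rw [hu]; ring
    have hb : b = (w - 20*a - 3*u)/4 := by rw [hw, hu]; ring
    rw [hc, hb]
    nlinarith [sq_nonneg (13*a + u), sq_nonneg u, sq_nonneg w, sq_nonneg a,
      sq_nonneg (w + 20*a), sq_nonneg (w + 3*u), sq_nonneg (20*a - 3*u)]
  have ha : |a| < 1/10000 := abs_lt_of_sq_lt_sq (by nlinarith [sq_nonneg b, sq_nonneg c]) (by norm_num)
  have hb : |b| < 1/10000 := abs_lt_of_sq_lt_sq (by nlinarith [sq_nonneg a, sq_nonneg c]) (by norm_num)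
  have hc : |c| < 1/10000 := abs_lt_of_sq_lt_sq (by nlinarith [sq_nonneg b, sq_nonneg a]) (by norm_num)
  have hq2 := q2_bound a b c t ht
  have hq1 := q1_bound a b c t ht
  rw [abs_lt] at ha hb hc
  have hq2' := (abs_le.mp hq2).1
  have := second_order (κ := 1/1000) (K := 25) (C := 14) (μ := 1)
    (s := 1 - (a^2 + (1+b)^2 + c^2 - 10*a*(1+b) + 12*a*c + 4*(1+b)*c))
    (by norm_num) hM (by linarith) (by ring) hq1 hq2 (by linarith) hN
    (by norm_num at hN2 ⊢; linarith) (by norm_num at hN2 ⊢; nlinarith)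
  nlinarith

/-- analysis at `e₃` -/
theorem core3 (a b c t : ℝ) (ht : 0 ≤ t) (hN : 0 < a^2 + b^2 + c^2 + t)
    (hN2 : a^2 + b^2 + c^2 + t < (1/10000)^2)
    (h1 : a^2 + b^2 + (1+c)^2 + 8*a*(1+c) + 2*b*(1+c) = 1)
    (h2 : a^2 + b^2 + (1+c)^2 - 10*a*b + 12*a*(1+c) + 4*b*(1+c) ≤ 1) :
    10 < -10*b^2 + 10*(1+c)^2 - 22*b*(1+c) + 10*a*b - 4*a*(1+c) + t := by
  have hM : (1/1000) * (a^2+b^2+c^2+t) - 25 * ((8*a+2*b+2*c)^2 + (12*a+4*b+2*c)^2)
      ≤ -10*a^2 - 20*b^2 - 200*a*b + t := by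
    obtain ⟨u, hu⟩ : ∃ u, u = 4*a + 2*b := ⟨_, rfl⟩
    obtain ⟨w, hw⟩ : ∃ w, w = 20*a + 6*b + 4*c := ⟨_, rfl⟩
    have hb : b = (u - 4*a)/2 := by rw [hu]; ring
    have hc : c = (w - 8*a - 3*u)/4 := by rw [hw, hu]; ring
    rw [hc, hb]
    nlinarith [sq_nonneg (10*a - u), sq_nonneg u, sq_nonneg w, sq_nonneg a,
      sq_nonneg (w + 8*a), sq_nonneg (w + 3*u), sq_nonneg (8*a - 3*u)]
  have ha : |a| < 1/10000 := abs_lt_of_sq_lt_sq (by nlinarith [sq_nonneg b, sq_nonneg c]) (by norm_num)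
  have hb : |b| < 1/10000 := abs_lt_of_sq_lt_sq (by nlinarith [sq_nonneg a, sq_nonneg c]) (by norm_num)
  have hc : |c| < 1/10000 := abs_lt_of_sq_lt_sq (by nlinarith [sq_nonneg b, sq_nonneg a]) (by norm_num)
  have hq2 := q2_bound a b c t ht
  have hq1 := q1_bound a b c t ht
  rw [abs_lt] at ha hb hc
  have hq2' := (abs_le.mp hq2).1
  have := second_order (κ := 1/1000) (K := 25) (C := 14) (μ := 21)
    (s := 1 - (a^2 + b^2 + (1+c)^2 - 10*a*b + 12*a*(1+c) + 4*b*(1+c)))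
    (by norm_num) hM (by linarith) (by ring) hq1 hq2 (by linarith) hN
    (by norm_num at hN2 ⊢; linarith) (by norm_num at hN2 ⊢; nlinarith)
  nlinarith

/-! ### The instance in dimension `3 + m` -/

/-- `B ⊕ c·I` as a matrix of size `3 + m`. -/
def ext (m : ℕ) (B : Matrix (Fin 3) (Fin 3) ℝ) (c : ℝ) : Matrix (Fin (3+m)) (Fin (3+m)) ℝ :=
  Matrix.reindex finSumFinEquiv finSumFinEquiv
    (Matrix.fromBlocks B 0 0 (c • (1 : Matrix (Fin m) (Fin m) ℝ)))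

theorem ext_symm (m : ℕ) (B : Matrix (Fin 3) (Fin 3) ℝ) (c : ℝ) (hB : B.IsSymm) :
    (ext m B c).IsSymm := by
  unfold ext
  have h : (Matrix.fromBlocks B 0 0 (c • (1 : Matrix (Fin m) (Fin m) ℝ))).IsSymm := by
    rw [Matrix.IsSymm, Matrix.fromBlocks_transpose, hB.eq]
    simp
  rw [Matrix.IsSymm, Matrix.transpose_reindex, h.eq]

theorem qf_ext (m : ℕ) (B : Matrix (Fin 3) (Fin 3) ℝ) (c : ℝ) (x : EuclideanSpace ℝ (Fin (3+m))) :
    qf (ext m B c) x = (∑ i, ∑ j, x (Fin.castAdd m i) * B i j * x (Fin.castAdd m j))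
      + c * ∑ k, x (Fin.natAdd 3 k) ^ 2 := by
  unfold qf ext
  rw [Fin.sum_univ_add]
  simp only [Fin.sum_univ_add]
  simp only [Matrix.reindex_apply, Matrix.submatrix_apply, finSumFinEquiv_symm_apply_castAdd,
    finSumFinEquiv_symm_apply_natAdd, Matrix.fromBlocks_apply₁₁, Matrix.fromBlocks_apply₁₂,
    Matrix.fromBlocks_apply₂₁, Matrix.fromBlocks_apply₂₂, Matrix.zero_apply, mul_zero, zero_mul,
    Finset.sum_const_zero, add_zero, zero_add, Matrix.smul_apply, Matrix.one_apply, smul_eq_mul]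
  congr 1
  rw [Finset.mul_sum]
  apply Finset.sum_congr rfl
  intro k _
  rw [Finset.sum_eq_single k]
  · simp; ring
  · intro b _ hb; simp [Ne.symm hb]
  · simp

/-- base matrices of the instance -/
def B0 : Matrix (Fin 3) (Fin 3) ℝ := !![0,5,-2; 5,-10,-11; -2,-11,10]
/-- base matrices of the instance -/
def B1 : Matrix (Fin 3) (Fin 3) ℝ := !![1,0,4; 0,1,1; 4,1,1]
/-- base matrices of the instance -/
def B2 : Matrix (Fin 3) (Fin 3) ℝ := !![1,-5,6; -5,1,2; 6,2,1]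

theorem B0_symm : B0.IsSymm := by
  ext i j; fin_cases i <;> fin_cases j <;> simp [B0]
theorem B1_symm : B1.IsSymm := by
  ext i j; fin_cases i <;> fin_cases j <;> simp [B1]
theorem B2_symm : B2.IsSymm := by
  ext i j; fin_cases i <;> fin_cases j <;> simp [B2]

section
variable {m : ℕ}

/-- first coordinate -/
abbrev c0 (m : ℕ) : Fin (3+m) := Fin.castAdd m 0
/-- second coordinate -/
abbrev c1 (m : ℕ) : Fin (3+m) := Fin.castAdd m 1
/-- third coordinate -/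
abbrev c2 (m : ℕ) : Fin (3+m) := Fin.castAdd m 2

theorem q0_eq (x : EuclideanSpace ℝ (Fin (3+m))) : qf (ext m B0 1) x =
    -10*(x (c1 m))^2 + 10*(x (c2 m))^2 - 22*(x (c1 m))*(x (c2 m)) + 10*(x (c0 m))*(x (c1 m))
      - 4*(x (c0 m))*(x (c2 m)) + ∑ k, x (Fin.natAdd 3 k) ^ 2 := by
  rw [qf_ext]
  simp [Fin.sum_univ_three, B0]; ring

theorem q1_eq (x : EuclideanSpace ℝ (Fin (3+m))) : qf (ext m B1 0) x =
    (x (c0 m))^2 + (x (c1 m))^2 + (x (c2 m))^2 + 8*(x (c0 m))*(x (c2 m))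
      + 2*(x (c1 m))*(x (c2 m)) := by
  rw [qf_ext]
  simp [Fin.sum_univ_three, B1]; ring

theorem q2_eq (x : EuclideanSpace ℝ (Fin (3+m))) : qf (ext m B2 0) x =
    (x (c0 m))^2 + (x (c1 m))^2 + (x (c2 m))^2 - 10*(x (c0 m))*(x (c1 m))
      + 12*(x (c0 m))*(x (c2 m)) + 4*(x (c1 m))*(x (c2 m)) := by
  rw [qf_ext]
  simp [Fin.sum_univ_three, B2]; ring

theorem norm_sq_eq (x : EuclideanSpace ℝ (Fin (3+m))) : ‖x‖^2 =
    (x (c0 m))^2 + (x (c1 m))^2 + (x (c2 m))^2 + ∑ k, x (Fin.natAdd 3 k) ^ 2 := by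
  rw [EuclideanSpace.real_norm_sq_eq, Fin.sum_univ_add, Fin.sum_univ_three]

theorem natAdd_ne (i : Fin 3) (k : Fin m) : Fin.natAdd 3 k ≠ Fin.castAdd m i := by
  intro h
  have := congrArg Fin.val h
  simp at this
  omega

/-- the vector `e_i` -/
noncomputable def e (m : ℕ) (i : Fin 3) : EuclideanSpace ℝ (Fin (3+m)) :=
  EuclideanSpace.single (Fin.castAdd m i) 1

theorem e_castAdd (i j : Fin 3) : (e m i) (Fin.castAdd m j) = if j = i then 1 else 0 := by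
  simp [e, Fin.castAdd_inj]

theorem e_natAdd (i : Fin 3) (k : Fin m) : (e m i) (Fin.natAdd 3 k) = 0 := by
  simp [e, natAdd_ne]

/-- the witness of non-globality -/
noncomputable def wit (m : ℕ) : EuclideanSpace ℝ (Fin (3+m)) :=
  (-4 : ℝ) • e m 0 + (-12 : ℝ) • e m 1 + (3 : ℝ) • e m 2

theorem wit_0 : wit m (c0 m) = -4 := by
  simp [wit, e_castAdd]
theorem wit_1 : wit m (c1 m) = -12 := by
  simp [wit, e_castAdd]
theorem wit_2 : wit m (c2 m) = 3 := by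
  simp [wit, e_castAdd]
theorem wit_n (k : Fin m) : wit m (Fin.natAdd 3 k) = 0 := by
  simp [wit, e_natAdd]

theorem wit_feas : wit m ∈ feas (ext m B1 0) (ext m B2 0) := by
  constructor
  · rw [q1_eq, wit_0, wit_1, wit_2]; norm_num
  · rw [q2_eq, wit_0, wit_1, wit_2]; norm_num

theorem wit_val : qf (ext m B0 1) (wit m) = -30 := by
  rw [q0_eq, wit_0, wit_1, wit_2]; simp [wit_n]; norm_num

theorem e_feas (i : Fin 3) : e m i ∈ feas (ext m B1 0) (ext m B2 0) := by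
  constructor
  · rw [q1_eq]; fin_cases i <;> simp [e_castAdd]
  · rw [q2_eq]; fin_cases i <;> simp [e_castAdd]

theorem e_val (i : Fin 3) : qf (ext m B0 1) (e m i) = ![0, -10, 10] i := by
  rw [q0_eq]; fin_cases i <;> simp [e_castAdd, e_natAdd]

theorem e_local (i : Fin 3) :
    IsStrictLocalMinimizer (ext m B0 1) (ext m B1 0) (ext m B2 0) (e m i) := by
  refine ⟨e_feas i, 1/10000, by norm_num, ?_⟩
  intro y hy hpos hlt
  obtain ⟨hy1, hy2⟩ := hy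
  rw [q1_eq] at hy1
  rw [q2_eq] at hy2
  rw [e_val, q0_eq]
  have hN : 0 < ‖y - e m i‖^2 := by positivity
  have hN2 : ‖y - e m i‖^2 < (1/10000)^2 := by
    apply pow_lt_pow_left₀ hlt (norm_nonneg _) (by norm_num)
  rw [norm_sq_eq] at hN hN2
  have hsum : ∑ k, (y - e m i) (Fin.natAdd 3 k) ^ 2 = ∑ k, y (Fin.natAdd 3 k) ^ 2 := by
    apply Finset.sum_congr rfl; intro k _
    rw [PiLp.sub_apply, e_natAdd, sub_zero]
  have ht : 0 ≤ ∑ k, y (Fin.natAdd 3 k) ^ 2 := Finset.sum_nonneg (fun _ _ => sq_nonneg _)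
  rw [hsum] at hN hN2
  simp only [PiLp.sub_apply, e_castAdd] at hN hN2
  generalize (∑ k, y (Fin.natAdd 3 k) ^ 2) = t at *
  generalize y (c0 m) = a at *
  generalize y (c1 m) = b at *
  generalize y (c2 m) = c at *
  fin_cases i
  · simp at hN hN2 ⊢
    have := core1 (a - 1) b c t ht hN (by norm_num at hN2 ⊢; linarith) (by linarith) (by linarith)
    linarith
  · simp at hN hN2 ⊢
    have := core2 a (b-1) c t ht hN (by norm_num at hN2 ⊢; linarith) (by linarith) (by linarith)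
    linarith
  · simp at hN hN2 ⊢
    have := core3 a b (c-1) t ht hN (by norm_num at hN2 ⊢; linarith) (by linarith) (by linarith)
    linarith

theorem qf_neg {n : ℕ} (A : Matrix (Fin n) (Fin n) ℝ) (x : EuclideanSpace ℝ (Fin n)) :
    qf A (-x) = qf A x := by
  unfold qf; simp

theorem local_neg {n : ℕ} {A₀ A₁ A₂ : Matrix (Fin n) (Fin n) ℝ} {x : EuclideanSpace ℝ (Fin n)}
    (h : IsStrictLocalMinimizer A₀ A₁ A₂ x) : IsStrictLocalMinimizer A₀ A₁ A₂ (-x) := by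
  obtain ⟨⟨h1, h2⟩, ε, hε, h⟩ := h
  refine ⟨⟨by rw [qf_neg]; exact h1, by rw [qf_neg]; exact h2⟩, ε, hε, ?_⟩
  intro y hy hpos hlt
  have := h (-y) ⟨by rw [qf_neg]; exact hy.1, by rw [qf_neg]; exact hy.2⟩
    (by rw [← norm_neg]; simpa [add_comm, sub_eq_add_neg] using hpos)
    (by rw [← norm_neg]; simpa [add_comm, sub_eq_add_neg] using hlt)
  rw [qf_neg] at this ⊢
  exact this

/-- the six points `±e_i` -/
noncomputable def pt (m : ℕ) (p : Fin 3 × Bool) : EuclideanSpace ℝ (Fin (3+m)) :=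
  if p.2 then e m p.1 else - e m p.1

theorem pt_injective : Function.Injective (pt m) := by
  rintro ⟨i, b⟩ ⟨j, c⟩ h
  have h1 := congrArg (fun x : EuclideanSpace ℝ (Fin (3+m)) => x (Fin.castAdd m i)) h
  simp only [pt] at h1
  cases b <;> cases c <;> by_cases hij : i = j <;>
    simp_all [e_castAdd] <;> norm_num at h1

theorem pt_good (p : Fin 3 × Bool) :
    IsStrictLocalMinimizer (ext m B0 1) (ext m B1 0) (ext m B2 0) (pt m p) ∧
    IsNonGlobal (ext m B0 1) (ext m B1 0) (ext m B2 0) (pt m p) := by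
  obtain ⟨i, b⟩ := p
  have hv : qf (ext m B0 1) (pt m (i, b)) = ![0, -10, 10] i := by
    cases b <;> simp [pt, qf_neg, e_val]
  constructor
  · cases b
    · simpa [pt] using local_neg (e_local i)
    · simpa [pt] using e_local i
  · refine ⟨wit m, wit_feas, ?_⟩
    rw [hv, wit_val]
    fin_cases i <;> simp <;> norm_num

end

/-- For every `n ≥ 3` there are symmetric `A₀, A₁, A₂` such that (QQ2) has at least six
strict local non-global minimizers. -/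
theorem result (n : ℕ) (hn : 3 ≤ n) :
    ∃ A₀ A₁ A₂ : Matrix (Fin n) (Fin n) ℝ, A₀.IsSymm ∧ A₁.IsSymm ∧ A₂.IsSymm ∧
      6 ≤ Set.encard {x : EuclideanSpace ℝ (Fin n) |
        IsStrictLocalMinimizer A₀ A₁ A₂ x ∧ IsNonGlobal A₀ A₁ A₂ x} := by
  obtain ⟨m, rfl⟩ := Nat.exists_eq_add_of_le hn
  refine ⟨ext m B0 1, ext m B1 0, ext m B2 0, ext_symm _ _ _ B0_symm, ext_symm _ _ _ B1_symm,
    ext_symm _ _ _ B2_symm, ?_⟩
  have h1 : Set.range (pt m) ⊆ {x : EuclideanSpace ℝ (Fin (3+m)) |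
      IsStrictLocalMinimizer (ext m B0 1) (ext m B1 0) (ext m B2 0) x ∧
      IsNonGlobal (ext m B0 1) (ext m B1 0) (ext m B2 0) x} := by
    rintro _ ⟨p, rfl⟩; exact pt_good p
  refine le_trans ?_ (Set.encard_le_encard h1)
  rw [← Set.image_univ, pt_injective.encard_image, Set.encard_univ]
  simp

end Pool.Agent.Results.MP_4a3f67_an.SixMinimizers
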